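import Pool.Agent.Helper55.AR.Defs

/-! Existence of the pcf data. -/

set_option autoImplicit false

open Cardinal Ordinal Set Filter Helper23.Pcf Helper55.CP

universe u

namespace Helper55.AR

theorem sys_aleph_add (γ₁ : Ordinal.{u}) (n : ℕ) :
    ℵ_ (γ₁ + (n : ℕ)) = succN (ℵ_ γ₁) n := by
  induction n with
  | zero => simp [succN]
  | succ n ih =>
    rw [succN_succ, ← ih, ← Cardinal.aleph_succ, ← Ordinal.add_one_eq_succ, add_assoc]
    norm_cast

/-- S -/
theorem sys_exists {α γ₁ : Ordinal.{u}} (hα : Order.IsSuccLimit α) (hγ : α.card = ℵ_ γ₁)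
    (hlt : γ₁ < α) : ∃ T : Sys.{u}, Match T (γ₁ + (6 : ℕ)) α := by
  classical
  have h0 : ℵ₀ ≤ α.card := by
    rw [Ordinal.aleph0_le_card]
    exact Ordinal.omega0_le_of_isSuccLimit hα
  have hγα : γ₁ + (6 : ℕ) < α := by
    have h7 : ∀ n : ℕ, γ₁ + (n : ℕ) < α := by
      intro n
      induction n with
      | zero => simpa using hlt
      | succ n ih =>
        have := hα.succ_lt ih
        rw [← Ordinal.add_one_eq_succ, add_assoc] at this
        exact_mod_cast this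
    exact h7 6
  have hμ6 : ℵ_ (γ₁ + (6 : ℕ)) = succN α.card 6 := by rw [sys_aleph_add, hγ]
  set γ₀ := γ₁ + (6 : ℕ) with hγ₀
  set a : Set Cardinal.{u} := ival (ℵ_ γ₀) (ℵ_ α) with ha
  have hareg : ∀ κ ∈ a, κ.IsRegular := fun κ h => h.1
  have halt : ∀ κ ∈ a, ℵ_ γ₀ < κ := fun κ h => h.2.1
  have hsub : (α - γ₀).card ≤ α.card := Ordinal.card_le_card (Ordinal.sub_le_self _ _)
  have hacard : #a ≤ Cardinal.lift.{u+1} α.card :=
    (mk_le_card' (x := α) (y := γ₀) fun κ h => ⟨h.2.1, h.2.2⟩).trans (Cardinal.lift_le.2 hsub)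
  have hpcard : #(pcfS a) ≤ Cardinal.lift.{u+1} (succN α.card 3) :=
    pcf_le h0 hsub hμ6.ge hγα
  have hpsmall : Small.{u} (pcfS a) := Cardinal.small_iff_lift_mk_lt_univ.2 (by
    rw [Cardinal.lift_id]
    exact hpcard.trans_lt (Cardinal.lift_lt_univ _))
  obtain ⟨ι, c, hcinj, hcr⟩ := exists_index a
  obtain ⟨Q, lam, hlinj, hlr⟩ := exists_index (pcfS a)
  have hca : ∀ i, c i ∈ a := fun i => by rw [← hcr]; exact ⟨i, rfl⟩
  have hla : ∀ q, lam q ∈ pcfS a := fun q => by rw [← hlr]; exact ⟨q, rfl⟩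
  have hlμ : ∀ q, ℵ_ γ₀ < lam q := fun q => lt_of_mem_pcfS hareg halt (hla q)
  have hlreg : ∀ q, (lam q).IsRegular := fun q => pcfS_isRegular (hla q)
  set ν := Order.succ α.card with hν
  have hνreg : ν.IsRegular := Cardinal.isRegular_succ h0
  have hν0 : ℵ₀ < ν := lt_of_le_of_lt h0 (Order.lt_succ _)
  have hι : #ι < ν := by
    refine lt_of_le_of_lt (Cardinal.lift_le.1 ?_) (Order.lt_succ α.card)
    exact (lift_mk_le_of_inj (fun i : ι => (⟨c i, hca i⟩ : a))
      (fun i j h => hcinj (Subtype.mk.inj h))).trans hacard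
  have hQ : #Q ≤ ℵ_ γ₀ := by
    rw [hμ6]
    refine le_trans (Cardinal.lift_le.1 ?_) (succN_mono α.card (by norm_num : 3 ≤ 6))
    exact (lift_mk_le_of_inj (fun q : Q => (⟨lam q, hla q⟩ : pcfS a))
      (fun i j h => hlinj (Subtype.mk.inj h))).trans hpcard
  have hνμ : Order.succ (Order.succ ν) ≤ ℵ_ γ₀ := by
    rw [hμ6]
    exact succN_mono α.card (by norm_num : 3 ≤ 6)
  have hP := fun q => exists_package (c := fun i => (c i).ord) hνreg hν0 hι
    (fun i => by rw [(hareg _ (hca i)).cof_ord]; exact hνμ.trans_lt (halt _ (hca i)))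
    (hlreg q) (hνμ.trans_lt (hlμ q))
  choose f hf1 hf2 hf3 using hP
  refine ⟨{ ι := ι, Q := Q, ν := ν, μ := ℵ_ γ₀, c := c, lam := lam, f := f, hν := hνreg,
            hν0 := hν0, hι := hι, hνμ := hνμ, hQ := hQ, hc := fun i => halt _ (hca i),
            reg := fun i => hareg _ (hca i), hlam := hlμ, regl := hlreg, hci := ?_, cof := ?_,
            f_lt := hf1, f_ob := hf2, f_dom := hf3 }, ⟨rfl, ?_, ?_⟩⟩
  · intro i
    have h1 : c i ∈ range lam := by rw [hlr]; exact self_subset_pcfS hareg (hca i)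
    exact h1
  · intro D
    obtain ⟨θ, hθ⟩ := exists_hasCof D (fun i => (c i).ord)
      (Filter.Eventually.of_forall fun i => Cardinal.isSuccLimit_ord (hareg _ (hca i)).1)
    have h1 : θ ∈ range lam := by rw [hlr]; exact ⟨ι, c, D, hcinj, hca, hθ⟩
    obtain ⟨q, rfl⟩ := h1
    exact ⟨q, hθ⟩
  · intro k
    refine ⟨?_, fun h => ?_⟩
    · rintro ⟨i, rfl⟩
      exact hca i
    · have h1 : k ∈ range c := by rw [hcr]; exact h
      exact h1
  · intro k
    refine ⟨?_, fun h => ?_⟩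
    · rintro ⟨i, rfl⟩
      exact hla i
    · have h1 : k ∈ range lam := by rw [hlr]; exact h
      exact h1

end Helper55.AR
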